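import Pool.Agent.H14.TraceNorm

set_option autoImplicit false
set_option maxRecDepth 100000

namespace Pool.Agent.Results.MP_4a987e_co.Spider

open Matrix Finset Pool.Agent.H14

def r (a b : Fin 33) : Prop := (a.1 = 0 ∧ 1 ≤ b.1 ∧ b.1 ≤ 16) ∨ (1 ≤ a.1 ∧ b.1 = a.1 + 16)

instance : DecidableRel r := fun a b => by unfold r; infer_instance

def G : SimpleGraph (Fin 33) where
  Adj a b := r a b ∨ r b a
  symm := ⟨fun _ _ h => h.symm⟩
  loopless := ⟨by decide⟩

instance : DecidableRel G.Adj := fun a b => by unfold G; infer_instance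

def s (a : Fin 33) : Fin 33 :=
  if a.1 = 0 then a else if h : a.1 ≤ 16 then ⟨a.1 + 16, by omega⟩ else ⟨a.1 - 16, by omega⟩

def y (a : Fin 33) : ℤ := if a.1 = 0 then 16 else if a.1 ≤ 16 then 4 else 1

theorem result : ¬ ∀ (n : ℕ) (G : SimpleGraph (Fin n)) [DecidableRel G.Adj]
    (hA : (G.adjMatrix ℝ).IsHermitian), G.Connected → G.edgeFinset.Nonempty →
    ∑ i, |hA.eigenvalues i| ≤ 2 * (G.edgeFinset.card : ℝ) / Real.sqrt (⨆ i, hA.eigenvalues i) := by
  intro h
  have hA : (G.adjMatrix ℝ).IsHermitian := G.isHermitian_adjMatrix ℝ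
  have hm : G.edgeFinset.card = 32 := by
    have := G.sum_degrees_eq_twice_card_edges
    have h2 : ∑ v, G.degree v = 64 := by decide +kernel
    omega
  have hc : G.Connected := by
    have k : ∀ x, x = 0 ∨ G.Adj 0 x ∨ ∃ z, G.Adj 0 z ∧ G.Adj z x := by decide +kernel
    have k2 : ∀ x, G.Reachable 0 x := by
      intro x
      rcases k x with rfl | h | ⟨z, h1, h2⟩
      · rfl
      · exact h.reachable
      · exact h1.reachable.trans h2.reachable
    exact ⟨fun a b => (k2 a).symm.trans (k2 b)⟩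
  have h1 := h 33 G hA hc (by rw [← card_pos, hm]; norm_num)
  have ss : Function.Involutive s := by
    have : ∀ a, s (s a) = a := by decide +kernel
    exact this
  have h2 := TraceNorm.perm_le hA (Function.Involutive.toPerm s ss)
  have e : ∀ a b, G.adjMatrix ℝ a b = ((G.adjMatrix ℤ a b : ℤ) : ℝ) := fun a b => by
    simp [SimpleGraph.adjMatrix_apply]
  have h3 : ∑ v, G.adjMatrix ℤ v (s v) = 32 := by decide +kernel
  have h4 : ∑ v, G.adjMatrix ℝ v (Function.Involutive.toPerm s ss v) = 32 := by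
    simp only [e, Function.Involutive.coe_toPerm]; exact_mod_cast h3
  have h5 := Spec.rayleigh_le hA (⨆ i, hA.eigenvalues i)
    (fun i => le_ciSup (Set.finite_range _).bddAbove i) fun a => (y a : ℝ)
  have h6 : ∑ a, y a * ∑ b, G.adjMatrix ℤ a b * y b = 2176 := by decide +kernel
  have h7 : ∑ a, y a * y a = 528 := by decide +kernel
  have h8 : (fun a => (y a : ℝ)) ⬝ᵥ (G.adjMatrix ℝ *ᵥ fun a => (y a : ℝ)) = 2176 := by
    simp only [dotProduct, mulVec, e]; exact_mod_cast h6
  have h9 : (fun a => (y a : ℝ)) ⬝ᵥ (fun a => (y a : ℝ)) = 528 := by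
    simp only [dotProduct]; exact_mod_cast h7
  rw [h8, h9] at h5
  have h10 : 2 < Real.sqrt (⨆ i, hA.eigenvalues i) := by
    rw [Real.lt_sqrt (by norm_num)]; linarith
  rw [hm, le_div_iff₀ (by linarith)] at h1
  push_cast at h1
  nlinarith

end Pool.Agent.Results.MP_4a987e_co.Spider
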